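import Pool.Agent.R887.ImgD

/-!
Weak nonvanishing for the log canonical pairs, of any dimension, which are dominated by a variety
with a contracting tower of finite multi-valued maps: their numerical dimension is at most zero.
-/

set_option autoImplicit false

open FF Pool.Agent.W602.GT Pool.Agent.Y172 Pool.Agent.R887

/-- Let `X 0, X 1, X 2, ...` be normal complex projective varieties of dimension `n ≥ 1`, with generic
points `y k`, and `Bd k` sets of places of their function fields (for instance empty, or the places
without centre on an open subset `U k` of `X k`; only the prime divisors of `X k` in `Bd k` matter).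
Let `X (k + 1) ← X'' k → X k` be multi-valued maps, given by homomorphisms `ψ k`, `φ k` of the
function fields, such that the prime divisors over `X'' k` which lie over prime divisors `P` of `X k`
lie over prime divisors `P'` of `X (k + 1)`, and if `P'` is not in `Bd (k + 1)`, then `P` is not in
`Bd k` and there is no ramification over `P'`: for instance, pairs of finite morphisms which are given
by `U (k + 1) ← U'' k → U k`, the first ones étale in codimension one. Let the intersection number
of `n - 1` pull backs of hyperplane sections of `X k` and one pull back of a hyperplane section of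
`X (k + 1)` be at most `c k` times the degree of `X'' k → X k`. Let `C s` be numbers which bound the
rank one subsheaves of the tensor powers of `Ω¹(log Bd s)` on `X s` absolutely (they exist if the sets
`Bd s` are finite), such that `c 0 ⋯ c (s - 1) C s` tends to `0` for `s → ∞` (for one variety with
one multi-valued map to itself, and constant `c`, `C`, this holds if `c < 1`).

Let `X k ⇢ R` be a dominant rational map, given by a homomorphism `f` of the function fields, onto a
normal projective variety of any dimension `m`, `1 ≤ m ≤ n`, with generic point `w`, and `(R, Δ)` a log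
canonical pair, `Δ` being a `ℚ`-divisor, such that `e α ≥ 1` for all prime divisors `P` of `X k` which
are not in `Bd k` and lie over a divisor `Q` over `R`, where `e` is the ramification index and `α` the
log discrepancy of `(R, Δ)` along `Q` (for instance `Δ = 0`, if `R` has canonical singularities; or
`Δ` is the orbifold divisor with the coefficients `1 - 1 / m_Q` for a fibration with the
multiplicities `m_Q`). Then

(1) the numerical dimension of `K_R + Δ` is at most `0`: the positive intersection product of
`K_R + Δ` and `m - 1` hyperplane sections is zero;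

(2) any two sections of `r (K_R + Δ)`, `r ≥ 1`, are proportional;

(3) if `K_R + Δ` is nef then the sections `ω ≠ 0` of `r (K_R + Δ)`, `r ≥ 1`, have no zeros: the order of
`ω` along every prime divisor `P` of `R` is `- r Δ P`. -/
theorem Pool.Agent.Results.MP_66b48b_ag.DominatedPairs.result
    {n : ℕ} (hn0 : 0 < n) {K L : ℕ → Type} [∀ k, Field (K k)] [∀ k, Algebra ℂ (K k)]
    [∀ k, Field (L k)] [∀ k, Algebra ℂ (L k)] {N : ℕ → ℕ} {y : ∀ k, Fin (N k + 1) → K k}
    (hy : ∀ k, NormalModel (y k)) (hn : ∀ k, Algebra.trdeg ℂ (K k) = n)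
    {Bd : ∀ k, Set (Place ℂ (K k))} (φ : ∀ k, K k →ₐ[ℂ] L k) (ψ : ∀ k, K (k + 1) →ₐ[ℂ] L k)
    (hψ : ∀ k, FiniteDimensional (ψ k).fieldRange (L k))
    (hfe : ∀ k, FiniteEtale (φ k) (ψ k) (y k) (Bd k) (y (k + 1)) (Bd (k + 1)))
    {c C : ℕ → ℝ} (hc0 : ∀ k, 0 < c k)
    (hc : ∀ k, MultiDegreeLe (φ k) (ψ k) (y k) (y (k + 1)) (n - 1) 1 (c k))
    (hC : ∀ s, AbsTensorLe (y s) (Bd s) (C s))
    (hlim : Filter.Tendsto (fun s => (∏ l ∈ Finset.range s, c l) * C s) Filter.atTop (nhds 0))
    (k : ℕ) {F : Type} [Field F] [Algebra ℂ F] {m R : ℕ} {w : Fin (R + 1) → F}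
    (hw : NormalModel w) (hm : Algebra.trdeg ℂ F = m) (hm0 : 0 < m) {Δ : Place ℂ F → ℚ}
    (hLC : LogCanonical w m Δ) (f : F →ₐ[ℂ] K k) (hpb : PullBackLe f w m Δ (y k) (Bd k)) :
    NumDimLt w m Δ 1 ∧
    (∀ (r : ℕ) (ω ω' : (Fin m → Derivation ℂ F F) → F), 1 ≤ r → IsSection w m r (r • Δ) ω →
      IsSection w m r (r • Δ) ω' → ω ≠ 0 → ∃ z : ℂ, ∀ E, ω' E = algebraMap ℂ F z * ω E) ∧
    (LogNef w m Δ → ∀ (r : ℕ) (ω : (Fin m → Derivation ℂ F F) → F), 1 ≤ r →
      IsSection w m r (r • Δ) ω → ω ≠ 0 → ∀ P, IsPrimeDivisor w P → OrdEq P ω (-(r * Δ P))) :=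
  img_pair (hy k) (hn k) hw hm hm0 hLC f hpb
    (tower_abs_zero hy hn hn0 φ ψ hψ hfe hc0 hc hC hlim k)
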