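import Pool.Agent.R887.TrvE

/-!
Pairs with a finite self-correspondence: `-(K_X + Δ)` is pseudo-effective, and weak non-vanishing
holds.
-/

set_option autoImplicit false

open FF Pool.Agent.W602.GT Pool.Agent.Y172 Pool.Agent.R887

/-- Let `X` be a normal complex projective variety of dimension `n ≥ 1`, with generic point `y`, and
`Δ` an `ℝ`-divisor on `X` (for instance, `(X, Δ)` is a log canonical pair). Let `X ← X'' → X` be a
self-correspondence of the pair: a variety `X''` with a generically finite rational map `p` to `X`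
and a dominant rational map `f` to `X`, for instance two finite morphisms, such that every prime
divisor `Q` over `X''` which `f` maps to a prime divisor `P` of `X`, with ramification index `e`, is
mapped by `p` to a prime divisor `P'` of `X`, with ramification index `e'`, and
`e' (1 - Δ P') ≤ e (1 - Δ P)`, that is, `f^* (K_X + Δ) ≤ p^* (K_X + Δ)`. Suppose that the
intersection number of `n - 1` pull backs by `f` of hyperplane sections of `X` and one pull back by
`p` of a hyperplane section of `X` is at most `c deg f`, where `c < 1`.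

Then `-(K_X + Δ)` is pseudo-effective. If `K_X + Δ` is pseudo-effective, then it is numerically
trivial, so that weak non-vanishing holds for it, and `e' (1 - Δ P') = e (1 - Δ P)` for all `Q`: the
correspondence is étale in the sense of pairs. -/
theorem Pool.Agent.Results.MP_66b48b_ag.FiniteSelfCorrespondences.result
    {K L : Type} [Field K] [Algebra ℂ K] [Field L] [Algebra ℂ L] {N n : ℕ}
    {y : Fin (N + 1) → K} (hy : NormalModel y) (hn : Algebra.trdeg ℂ K = n) (hn0 : 0 < n)
    {Δ : Place ℂ K → ℝ} (hΔ : {P | IsPrimeDivisor y P ∧ Δ P ≠ 0}.Finite) (φ ψ : K →ₐ[ℂ] L)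
    (hψ : FiniteDimensional ψ.fieldRange L) (hlog : FiniteLogPullBackLe φ ψ y Δ y Δ) {c : ℝ}
    (hc : MultiDegreeLe φ ψ y y (n - 1) 1 c) (hc1 : c < 1) :
    AntiPseudoEffectiveR y n Δ ∧ (PseudoEffectiveR y n Δ → NumTrivialR y n Δ ∧
      ∀ P, IsPrimeDivisor y P → ∀ (Q : Place ℂ L) (e : ℕ), LiesOver φ Q P e →
        ∀ (P' : Place ℂ K) (e' : ℕ), LiesOver ψ Q P' e' →
          (e' : ℝ) * (1 - Δ P') = e * (1 - Δ P)) := by
  obtain ⟨h1, h2⟩ := anti_psef hy hn hn0 hΔ φ ψ hψ hlog hc hc1
  exact ⟨h1, fun h => ⟨⟨h, h1⟩, (h2 h).1⟩⟩
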