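import Pool.Agent.R882.HOB

/-!
# Non-vanishing for the open images of towers of nondegenerate complete intersections

An open tower (`OpenTower`, `Pool/Agent/R882/HO.lean`) is a sequence of generically finite maps
`V 0 ⇢ V 1 ⇢ ... ⇢ V k` of open varieties of dimension `n ≥ 1`, where `V k` is any open variety which
is dominated by an `A¹`-ruled open variety (`A1Dominated`; for example the product of the affine line
with a torus) and each
`V i`, `i < k`, is birational to a component of the set of common zeros in a torus
`(ℂ^*) ^ (n + q)` of a system `f` of Laurent polynomials which is nondegenerate in the sense of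
Khovanskii, with arbitrary Newton polytopes; the boundary of `V i` consists of the prime divisors for
which the vector of the orders of the coordinates is in a given set `S` (for `S = ∅` this is the
projective case, and if `S` contains all nonzero vectors then `V i` is the subvariety of the torus
itself); `V (i + 1)` is birational to the image of `V i` under monomials `t l = x ^ (w l)`, where
`ℂ(V i) = ℂ(V (i + 1))(y)` for a monomial `y = x ^ v`, and the boundary of `V i` is the preimage of the
boundary of `V (i + 1)`. Let `b i` be the degree of `V i` over `V (i + 1)`. It is assumed that there
are columns for `s i = s / (b 0 ⋯ b (i - 1))`: for each divisor `c < b i` of `b i` an `M` with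
`s i ≤ c (M + 1)` such that the `u + j v` and the `u + j v + M w l`, `j < c`, satisfy the inequalities
of the Newton polytopes for all integral vectors, and the inequalities of the Fine interior for the
vectors which are not in `S` (`InPoly`).

Let `V → W` be a dominant rational map of degree `r` to an open variety `W`, `V = V 0`, which is proper
over the prime divisors: the boundary of `V` is the preimage of the boundary of `W`. The map is
arbitrary otherwise. The theorem:
if there are columns for `s = r` then these are equivalent: `W` has no logarithmic canonical forms; the
logarithmic Kodaira dimension of `W` is `-∞`; `K_W + D_W` is not pseudo-effective; `W` is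
`A¹`-uniruled; `W` is dominated by an `A¹`-ruled open variety. If there are columns for `s = 2 r` then
they are also equivalent to: `W` is not of logarithmic general type.

So weak non-vanishing holds for all log smooth models `(W, D_W)` of these open varieties, with reduced
boundary `D_W`: if `K_W + D_W` is pseudo-effective then it has already a nonzero section. These are log
canonical pairs which are not klt if `D_W` is not zero.

Proof: if `W` has no logarithmic canonical forms and `V i → W` is a rational map as above then it
factors through `V i ⇢ V (i + 1)`, because the traces to `W` of the logarithmic forms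
`A(t) x ^ u y ^ j Res`, where `Res` is the residue form on `V i` and `A` has degree at most `M`, are
zero. So `W` is dominated by `V k`.

`K`, `B` and `L`, `BL` are the function fields and the boundaries of `V` and `W`. `KodGe ℂ L n BL 0` says
that `κ(K_W + D_W) ≥ 0`, `Psef ℂ L n BL` that `K_W + D_W` is pseudo-effective (`Pool/Agent/W602/GT`),
`A1Dominated` is in `Pool/Agent/R882/HOB.lean`.
-/

set_option autoImplicit false
set_option linter.overlappingInstances false

open FF Module Pool.Agent.W602.GT Pool.Agent.Y172
open Pool.Agent.W619.PL (IsA1Uniruled)
open Pool.Agent.R882.HO (OpenTower A1Dominated LogGenusZero)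

namespace Pool.Agent.Results.MP_66b48b_ag.OpenTowers

/-- **Non-vanishing for the open images of towers.** Let `V` be the first variety of an open tower of
dimension `n ≥ 1` over an open variety dominated by an `A¹`-ruled one, and let `V → W` be a dominant
rational map of degree `r` such that the boundary of `V` is the preimage of the boundary of `W`. If
there are columns for `r` then these are equivalent: there are no logarithmic canonical forms on `W`;
`κ(K_W + D_W) = -∞`; `K_W + D_W` is not pseudo-effective; `W` is `A¹`-uniruled; `W` is dominated by an
`A¹`-ruled variety. If there are columns for `2 r` then they are also equivalent to: `K_W + D_W` is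
not big. -/
theorem result {n : ℕ} (hn : 1 ≤ n) {K : Type} [Field K] [Algebra ℂ K] [Algebra.EssFiniteType ℂ K]
    (hK : Algebra.trdeg ℂ K = (n : ℕ)) {B : Place ℂ K → Prop}
    (L : Type) [Field L] [Algebra ℂ L] [Algebra L K] [IsScalarTower ℂ L K]
    [FiniteDimensional L K] {BL : Place ℂ L → Prop}
    (hB : ∀ (P : Place ℂ L) (Q : Place ℂ K) (e : ℕ), Over Q P e → (BL P ↔ B Q)) :
    (OpenTower n (fun E _ _ BE => A1Dominated n E BE) K B (Module.finrank L K) →
      [LogGenusZero L n BL, ¬ KodGe ℂ L n BL 0, ¬ Psef ℂ L n BL, IsA1Uniruled ℂ L n BL,
        A1Dominated n L BL].TFAE) ∧
    (OpenTower n (fun E _ _ BE => A1Dominated n E BE) K B (2 * Module.finrank L K) →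
      [LogGenusZero L n BL, ¬ KodGe ℂ L n BL 0, ¬ Psef ℂ L n BL, ¬ LogGeneralType ℂ L n BL,
        IsA1Uniruled ℂ L n BL, A1Dominated n L BL].TFAE) :=
  ⟨Pool.Agent.R882.HO.open_tfae_one L hn hK hB, Pool.Agent.R882.HO.open_tfae_two L hn hK hB⟩

end Pool.Agent.Results.MP_66b48b_ag.OpenTowers
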